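import Mathlib

/-!
Project UI (MP_1283eb_co): the t = -1 phenomenon for upper ideals of Delta(1).
Everything in coordinates with respect to the simple roots: `A j i` is the pairing of the
simple root alpha_j with the simple coroot alpha_i.
-/

namespace Pool.Agent.J4H89.UI

/-- The simple reflection `s_i`: `v - <v, alpha_i^vee> alpha_i`. -/
def sr {n : ℕ} (A : Matrix (Fin n) (Fin n) ℤ) (i : Fin n) (v : Fin n → ℤ) : Fin n → ℤ :=
  fun k => v k - if k = i then ∑ j, v j * A j i else 0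

/-- The action of the product of simple reflections `s_(i_1) ... s_(i_r)` given by a word. -/
def act {n : ℕ} (A : Matrix (Fin n) (Fin n) ℤ) : List (Fin n) → (Fin n → ℤ) → (Fin n → ℤ)
  | [], v => v
  | i :: L, v => sr A i (act A L v)

/-- The roots: the images of the simple roots under the Weyl group. -/
def IsRoot {n : ℕ} (A : Matrix (Fin n) (Fin n) ℤ) (v : Fin n → ℤ) : Prop :=
  ∃ (L : List (Fin n)) (i : Fin n), v = act A L (Pi.single i 1)

/-- The degree of a vector for the labelling `l`. -/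
def deg {n : ℕ} (l : Fin n → ℕ) (v : Fin n → ℤ) : ℤ := ∑ i, v i * (l i : ℤ)

/-- Upper ideals of a finite set `D` of vectors; `x ≤ y` (coordinatewise) means that `y - x` is
a nonnegative integer combination of simple roots. -/
def Upper {n : ℕ} (D I : Finset (Fin n → ℤ)) : Prop :=
  I ⊆ D ∧ ∀ x ∈ I, ∀ y ∈ D, x ≤ y → y ∈ I

/-- The word `L` represents the longest element of the group generated by the simple
reflections `s_i` with `i ∈ Z`. -/
def Longest {n : ℕ} (A : Matrix (Fin n) (Fin n) ℤ) (Z : Set (Fin n)) (L : List (Fin n)) : Prop :=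
  (∀ i ∈ L, i ∈ Z) ∧ ∀ i ∈ Z, act A L (Pi.single i 1) ≤ 0

open Classical in
/-- The value at `-1` of the generating function of the upper ideals of `D` equals the number of
the upper ideals `I` with `I = D \ w(I)`. -/
def Good {n : ℕ} (D : Finset (Fin n → ℤ)) (w : (Fin n → ℤ) → (Fin n → ℤ)) : Prop :=
  ∑ I ∈ D.powerset.filter (fun I => Upper D I), (-1 : ℤ) ^ I.card =
    ((D.powerset.filter (fun I => Upper D I ∧ D \ I.image w = I)).card : ℤ)

/-- The t = -1 phenomenon for every grading of the Lie algebra with Cartan matrix `A`. -/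
def Phen {n : ℕ} (A : Matrix (Fin n) (Fin n) ℤ) : Prop :=
  ∀ (l : Fin n → ℕ) (L : List (Fin n)), Longest A {i | l i = 0} L →
    ∃ D : Finset (Fin n → ℤ), (∀ v, v ∈ D ↔ IsRoot A v ∧ deg l v = 1) ∧ Good D (act A L)

/-- Disjoint union of two mutually incomparable parts, both kept by `w`. -/
def S_UNION : Prop := ∀ (n : ℕ) (D E : Finset (Fin n → ℤ)) (w : (Fin n → ℤ) → (Fin n → ℤ)),
  (∀ x ∈ D, w x ∈ D) → (∀ x ∈ E, w x ∈ E) →
  (∀ x ∈ D, ∀ y ∈ E, ¬ x ≤ y ∧ ¬ y ≤ x) → Good D w → Good E w → Good (D ∪ E) w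

/-- `R` is the set of the positive roots of `A`, and every root is positive or negative. -/
def PosRoots {n : ℕ} (A : Matrix (Fin n) (Fin n) ℤ) (R : Finset (Fin n → ℤ)) : Prop :=
  (∀ v, v ∈ R ↔ IsRoot A v ∧ 0 ≤ v) ∧ (∀ v, IsRoot A v → 0 ≤ v ∨ v ≤ 0)

/-- The component of `Delta(1)` at the node `j`, `Z` = the set of nodes of degree `0`. -/
def comp {n : ℕ} (R : Finset (Fin n → ℤ)) (Z : Finset (Fin n)) (j : Fin n) :
    Finset (Fin n → ℤ) :=
  R.filter (fun v => v j = 1 ∧ ∀ i, i ∉ Z → i ≠ j → v i = 0)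

/-- Reduction of a grading to its components. -/
def S_RED : Prop := ∀ (n : ℕ) (A : Matrix (Fin n) (Fin n) ℤ) (R : Finset (Fin n → ℤ)),
  (∀ i, A i i = 2) → PosRoots A R →
  (∀ (Z : Finset (Fin n)) (j : Fin n) (L : List (Fin n)), j ∉ Z → Longest A (Z : Set (Fin n)) L →
    Good (comp R Z j) (act A L)) → Phen A

/-- Uniqueness of the longest element. -/
def S_UNIQ : Prop := ∀ (n : ℕ) (A : Matrix (Fin n) (Fin n) ℤ) (d : Fin n → ℤ)
  (R : Finset (Fin n → ℤ)),
  (∀ i, A i i = 2) → (∀ i, 0 < d i) → (∀ i j, A i j * d j = A j i * d i) → PosRoots A R →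
  (∀ v ∈ R, ∀ i, (∀ k, k ≠ i → v k = 0) → v = Pi.single i 1) →
  ∀ (Z : Set (Fin n)) (L M : List (Fin n)), Longest A Z L → Longest A Z M →
    ∀ v, act A L v = act A M v

/-- All upper ideals (as bit masks) of the poset on `0, 1, ..., k - 1` in which `ups a` is the bit
mask of the set of the `b < a` above `a`. -/
def masks (ups : ℕ → ℕ) : ℕ → List ℕ
  | 0 => [0]
  | a + 1 => masks ups a ++
      ((masks ups a).filter (fun I => I &&& ups a == ups a)).map (fun I => I + 2 ^ a)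

/-- The sum of `(-1)^(number of bits below N)` over the masks. -/
def sgn (N : ℕ) (I : ℕ) : ℤ :=
  (List.range N).foldl (fun s a => if I.testBit a then - s else s) 1

/-- `I` is self-dual: for all `a < N` exactly one of `a ∈ I`, `p a ∈ I`
(`p` an involution). -/
def sd (N : ℕ) (p : ℕ → ℕ) (I : ℕ) : Bool :=
  (List.range N).all (fun a => (I.testBit a) != (I.testBit (p a)))

/-- The check by enumeration. -/
def chk (N : ℕ) (ups p : ℕ → ℕ) : Bool :=
  ((masks ups N).map (sgn N)).sum == (((masks ups N).filter (sd N p)).length : ℤ)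

/-- Correctness of the enumeration. -/
def S_ENUM : Prop := ∀ (n N : ℕ) (D : Finset (Fin n → ℤ)) (w : (Fin n → ℤ) → (Fin n → ℤ))
  (x : ℕ → (Fin n → ℤ)) (ups p : ℕ → ℕ),
  (∀ v, v ∈ D ↔ ∃ a < N, x a = v) → (∀ a < N, ∀ b < N, x a = x b → a = b) →
  (∀ a < N, ∀ b < N, x a ≤ x b → b ≤ a) →
  (∀ a < N, ups a < 2 ^ a ∧ ∀ b < a, ((ups a).testBit b = true ↔ x a ≤ x b)) →
  (∀ a < N, p a < N ∧ p (p a) = a ∧ w (x a) = x (p a)) →
  chk N ups p = true → Good D w

/-- The exceptional types. -/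
def S_EXC : Prop := Phen CartanMatrix.G₂ ∧ Phen CartanMatrix.F₄ ∧ Phen CartanMatrix.E₆ ∧
  Phen CartanMatrix.E₇ ∧ Phen CartanMatrix.E₈

def S_TA : Prop := ∀ n, Phen (CartanMatrix.A n)
def S_TB : Prop := ∀ n, Phen (CartanMatrix.B n)
def S_TC : Prop := ∀ n, Phen (CartanMatrix.C n)
def S_TD : Prop := ∀ n, 4 ≤ n → Phen (CartanMatrix.D n)

end Pool.Agent.J4H89.UI
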